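import Pool.Agent.Helper19.LU.Final

/-!
# The germ of `x - x²` is undistorted in every finitely generated group of classical germs

Sketch. Let `q(x) = x - x²`. The Galois group of `q^[n] y = x` over `ℂ(x)` is the full group of
automorphisms of the binary rooted tree of depth `n`; in particular the `(n-1)`-th term of its
derived series moves every root. A word of length `l` in classical germs lies in a tower of
extensions of `ℂ(x)` (inside a field of germs of meromorphic functions), which arises from `l`
towers of bounded complexity by substitution. A step of such a tower, with base field `E`, adds
to `E` only algebraic functions whose Galois group over `E` is harmless for the derived series: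
* algebraic elements of degree `d` cost `d!`;
* if a solution of a Riccati equation over `E` is algebraic over `E`, then a `2`-group of
  automorphisms permutes the solutions by homographies with constant coefficients, so it is
  abelian on a subgroup of index at most `2` (cost `2`);
* if a solution of a Weierstrass equation over `E` is algebraic over `E`, then the automorphisms
  act by translations by constant points of the elliptic curve (cost `1`);
* a solution which is transcendental over `E` adds nothing (resp. a quadratic extension).
Hence a word of length `l` which represents `g^(-n)` satisfies `n ≤ C l`.
-/

open Filter Topology

open Pool.Agent.Germ Pool.Agent.Helper19.LU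

namespace Pool.Agent.Results.MP_91c48b_an.ClassicalGerms

/-- Let `g` be the germ at `0` of `x - x²` and let `S` be a finite set of germs of `C¹`
diffeomorphisms which together with their inverses are classical. Then the word length of `g^n`
with respect to `S` grows linearly. -/
theorem result (f : LD 1) (hf : f.toFun = fun x : ℝ => x - x ^ 2) (S : Finset (GermDiff 1))
    (hS : ∀ s ∈ S, IsClassical s ∧ IsClassical s⁻¹) :
    ∃ c : ℝ, 0 < c ∧ ∀ n : ℕ,
      GermDiff.mk f ^ n ∈ Subgroup.closure (S : Set (GermDiff 1)) →
        c * n ≤ wordLen S (GermDiff.mk f ^ n) :=
  undistorted rfl (Eventually.of_forall fun x => congrFun hf x) S hS

end Pool.Agent.Results.MP_91c48b_an.ClassicalGerms
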