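import Pool.Agent.Helper19.Germ.Final
import Pool.Agent.Helper69.Germ.PerfectFinal

/-!
# The germ of `x - x²` is a distortion element of the group of germs of `C²` diffeomorphisms

Team proof (helper19, helper37, helper41, helper58, helper69, helper89, helper92).

Sketch. In the coordinate `u = 1/x` (resp. `u = -1/x`) on the two half-lines, the germ is conjugate
to the time one map `G` of a vector field `(τ + β(u)) d/du`, `β ~ 1/u`, which is piecewise affine
and homogeneous up to very sparse errors. Then `G^(4^s) = h_s D^s X^(2^s) B D^(-s)` with `D` the
dilation of factor `2` and `h_s` an error map, supported on a sparse family of intervals. A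
perfectness lemma with estimates writes all error maps `h_s` as products of six commutators of
maps which are stored, after suitable dilations, in twelve germs; the word length of `G^(4^s)` is
`O(3^s)`.
-/

open Filter Topology

open Pool.Agent.Germ

namespace Pool.Agent.Results.MP_91c48b_an.DistortedC2

/-- The germ at `0` of `x ↦ x - x²` is a distortion element of the group of germs at `0` of `C²`
diffeomorphisms fixing `0`. -/
theorem result : ∃ f : LD 2, f.toFun = (fun x : ℝ => x - x ^ 2) ∧
    IsDistortionElement (GermDiff.mk f) := by
  have hd : HasDerivAt (fun x : ℝ => x - x ^ 2) 1 0 := by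
    have h := (hasDerivAt_id (0 : ℝ)).fun_sub (hasDerivAt_pow 2 (0 : ℝ))
    simpa using h
  refine ⟨⟨fun x => x - x ^ 2, by simp, by fun_prop, by rw [hd.deriv]; norm_num⟩, rfl, ?_⟩
  refine distorted ?_ _ (Eventually.of_forall fun x => rfl)
  exact perfect

end Pool.Agent.Results.MP_91c48b_an.DistortedC2
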