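import Pool.Agent.Helper53.UM.Indep

/-!
# The germ of `x - x²` is undistorted if the multipliers of the generators are unitary in some embedding

Sketch. For germs `a`, `b` of `C²` diffeomorphisms fixing `0` put `c(a) = a''(0) / a'(0)`. Then
`c(a b) = c(b) + b'(0) c(a)`. Let `K` be a field which contains the multipliers `s'(0)` of the
generators, let `σ` be an embedding of `K` into `ℂ` such that `|σ(s'(0))| = 1` for all generators,
and let `ℓ : ℝ → K` be `K`-linear with `ℓ(1) = 1`. The function `φ(a) = σ(ℓ(c(a)))` satisfies
`|φ(a b)| ≤ |φ(a)| + |φ(b)|` and `|φ(a⁻¹)| = |φ(a)|` on the group generated by `S`, and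
`φ(g^n) = -2 n`. Algebraically independent numbers can be mapped to algebraically independent
numbers of the unit circle.
-/

set_option autoImplicit false

open Pool.Agent.Germ Pool.Agent.Helper53.UM

namespace Pool.Agent.Results.MP_91c48b_an.UnitaryMultipliers

/-- Let `g` be the germ at `0` of `x - x²` and let `S` be a finite set of germs of `C²`
diffeomorphisms fixing `0`. If some field embedding maps the derivatives at `0` of the elements of
`S` to the unit circle, or if these derivatives are, up to the sign, monomials in algebraically
independent real numbers, then the word length of `g^n` with respect to `S` grows linearly. -/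
theorem result (f : LD 2) (hf : f.toFun = fun x : ℝ => x - x ^ 2) (S : Finset (GermDiff 2)) :
    (∀ (K : Subfield ℝ) (σ : K →+* ℂ), (∀ s ∈ S, ∃ x : K, (x : ℝ) = multiplier s ∧ ‖σ x‖ = 1) →
      Undistorted S (GermDiff.mk f)) ∧
    ∀ (k : ℕ) (l : Fin k → ℝ), AlgebraicIndependent ℚ l →
      (∀ s ∈ S, ∃ e : Fin k → ℤ, |multiplier s| = |∏ i, l i ^ e i|) →
      Undistorted S (GermDiff.mk f) :=
  ⟨fun K σ h => unitary hf S K σ h, fun k l hl h => indep hf S k l hl h⟩

end Pool.Agent.Results.MP_91c48b_an.UnitaryMultipliers
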